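import Pool.Agent.R571.CS.Lim

/-!
# The uniform estimate giving absolute continuity, and the representing measures
-/

namespace Pool.Agent.R571.CS

open MeasureTheory Filter Topology Set
open scoped ZeroAtInfty NNReal ENNReal Nat

variable {H : Type*} [Group H] [TopologicalSpace H] [IsTopologicalGroup H]
  [LocallyCompactSpace H] [SecondCountableTopology H] [T2Space H]
  [MeasurableSpace H] [BorelSpace H] {m : Measure H} [m.IsHaarMeasure] {d e : ℕ → E H}
  {ν : ℕ → ProbabilityMeasure H} {M : ℕ → ℕ}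

/-- the growth of the `L¹` norm -/
noncomputable def cc (n : ℕ) : ℝ≥0 := ∑ k ∈ Finset.range n, (1 + (1 / 2) ^ (k + 1))

lemma cc_succ (n : ℕ) : cc (n + 1) = cc n + (1 + (1 / 2) ^ (n + 1)) := Finset.sum_range_succ _ _

lemma cc_eq (n : ℕ) : (cc n : ℝ) = n + 1 - (1 / 2) ^ n := by
  induction n with
  | zero => simp [cc]
  | succ n ih =>
    rw [cc_succ]
    push_cast
    rw [ih, pow_succ]
    ring

lemma Good.ty0 (G : Good m d e ν M) : ∃ K : ℕ → ℝ≥0, ∀ n, Ty m (S ν n) 0 (K n) (cc n) := by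
  have h : ∀ n, ∃ C : ℝ≥0, Ty m (P (ν n : Measure H)) 0 C (1 + (1 / 2) ^ (n + 1)) := by
    intro n
    obtain ⟨C, hC, h⟩ := G.ac n
    lift C to ℝ≥0 using hC
    exact ⟨C, Ty.P_ac (G.l1 n) h⟩
  choose C hC using h
  refine ⟨fun n => ∑ k ∈ Finset.range n, C k, fun n => ?_⟩
  induction n with
  | zero => simpa [S, cc] using Ty.zero (m := m)
  | succ n ih =>
    have h := ih.add (hC n)
    rw [← S_succ, ← cc_succ, zero_add] at h
    simpa only [Finset.sum_range_succ] using h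

lemma Good.ty (G : Good m d e ν M) {n : ℕ} {K : ℝ≥0} (h : Ty m (S ν n) 0 K (cc n)) (j : ℕ) :
    Ty m (S ν (n + j)) j K (cc (n + j)) := by
  induction j with
  | zero => simpa using h
  | succ j ih =>
    rw [← add_assoc, S_succ, cc_succ]
    simpa using ih.add (Ty.P_prob (G.l1 (n + j)))

lemma Good.bound (G : Good m d e ν M) (n : ℕ) : ∃ K : ℝ, 0 ≤ K ∧ ∀ N, n ≤ N → ∀ t : ℝ, 0 ≤ t →
    ∀ f : E H, I m f ≠ ∞ →
      ‖U ν N t f‖ ≤ Real.exp (-(t * n)) * ‖f‖ + t * K * Real.exp t * (I m f).toReal := by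
  obtain ⟨K, hK⟩ := G.ty0
  refine ⟨K n, (K n).2, fun N hN t ht f hf => ?_⟩
  obtain ⟨j, rfl⟩ := Nat.exists_eq_add_of_le hN
  have h1 := G.ty (hK n) j
  have hc := cc_eq (n + j)
  have hp : (0 : ℝ) < (1 / 2) ^ (n + j) := by positivity
  have hp1 : (1 / 2 : ℝ) ^ (n + j) ≤ 1 := pow_le_one₀ (by norm_num) (by norm_num)
  push_cast at hc
  have h2 : (j : ℝ≥0) ≤ cc (n + j) := by
    rw [← NNReal.coe_le_coe, hc, NNReal.coe_natCast]
    have : (0 : ℝ) ≤ n := Nat.cast_nonneg n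
    linarith
  have h3 := h1.exp h2 ht hf
  rw [U_eq, smul_apply, norm_smul, Real.norm_of_nonneg (Real.exp_nonneg _)]
  calc Real.exp (-(t * ((n + j : ℕ) : ℝ))) * ‖NormedSpace.exp (t • S ν (n + j)) f‖
      ≤ Real.exp (-(t * ((n + j : ℕ) : ℝ))) * (Real.exp (t * (j : ℝ≥0)) * ‖f‖ +
        t * K n * Real.exp (t * cc (n + j)) * (I m f).toReal) := by gcongr
    _ = Real.exp (-(t * n)) * ‖f‖ +
        t * K n * Real.exp (t * (cc (n + j) - (n + j))) * (I m f).toReal := by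
        rw [mul_add, ← mul_assoc, ← Real.exp_add]
        have e1 : -(t * ((n + j : ℕ) : ℝ)) + t * ((j : ℝ≥0) : ℝ) = -(t * n) := by
          push_cast; ring
        have e2 : t * ((cc (n + j) : ℝ) - (n + j)) = -(t * ((n + j : ℕ) : ℝ)) + t * cc (n + j) := by
          push_cast; ring
        rw [e1, e2, Real.exp_add]
        ring
    _ ≤ _ := by
        have : t * ((cc (n + j) : ℝ) - (n + j)) ≤ t := by
          rw [hc]
          nlinarith
        gcongr

variable {T : ℝ → E H → E H}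

lemma T_bound (hT : ∀ t, 0 ≤ t → ∀ f, Tendsto (fun n => U ν n t f) atTop (𝓝 (T t f)))
    (G : Good m d e ν M) (n : ℕ) : ∃ K : ℝ, 0 ≤ K ∧ ∀ t : ℝ, 0 ≤ t →
    ∀ f : E H, I m f ≠ ∞ →
      ‖T t f‖ ≤ Real.exp (-(t * n)) * ‖f‖ + t * K * Real.exp t * (I m f).toReal := by
  obtain ⟨K, hK, h⟩ := G.bound n
  refine ⟨K, hK, fun t ht f hf => ?_⟩
  refine le_of_tendsto (hT t ht f).norm ?_
  filter_upwards [eventually_ge_atTop n] with N hN
  exact h N hN t ht f hf

end Pool.Agent.R571.CS
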