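import Mathlib

/-!
# Averaging operators on `C₀(H)`
-/

namespace Pool.Agent.R571.CS

open MeasureTheory Filter Topology Set
open scoped ZeroAtInfty NNReal ENNReal

/-- The Banach space `C₀(H, ℝ)`. -/
def E (H : Type*) [TopologicalSpace H] : Type _ := C₀(H, ℝ)

section

variable {H : Type*} [TopologicalSpace H]

noncomputable instance : NormedAddCommGroup (E H) := inferInstanceAs (NormedAddCommGroup C₀(H, ℝ))

noncomputable instance : NormedSpace ℝ (E H) := inferInstanceAs (NormedSpace ℝ C₀(H, ℝ))

instance : CompleteSpace (E H) := inferInstanceAs (CompleteSpace C₀(H, ℝ))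

instance : FunLike (E H) H ℝ := inferInstanceAs (FunLike C₀(H, ℝ) H ℝ)

instance : ZeroAtInftyContinuousMapClass (E H) H ℝ :=
  inferInstanceAs (ZeroAtInftyContinuousMapClass C₀(H, ℝ) H ℝ)

@[ext] lemma E.ext {f g : E H} (h : ∀ x, f x = g x) : f = g := DFunLike.ext _ _ h

@[simp] lemma E.add_apply (f g : E H) (x : H) : (f + g) x = f x + g x := rfl

@[simp] lemma E.sub_apply (f g : E H) (x : H) : (f - g) x = f x - g x := rfl

@[simp] lemma E.neg_apply (f : E H) (x : H) : (-f) x = -f x := rfl

@[simp] lemma E.smul_apply (c : ℝ) (f : E H) (x : H) : (c • f) x = c * f x := rfl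

@[simp] lemma E.zero_apply (x : H) : (0 : E H) x = 0 := rfl

end

variable {H : Type*} [Group H] [TopologicalSpace H] [IsTopologicalGroup H]

lemma norm_le_iff {f : E H} {C : ℝ} (hC : 0 ≤ C) : ‖f‖ ≤ C ↔ ∀ x, |f x| ≤ C := by
  change ‖(show C₀(H, ℝ) from f)‖ ≤ C ↔ _
  rw [← ZeroAtInftyContinuousMap.norm_toBCF_eq_norm]
  exact BoundedContinuousFunction.norm_le hC

lemma abs_le_norm (f : E H) (x : H) : |f x| ≤ ‖f‖ := (norm_le_iff (norm_nonneg f)).1 le_rfl x

/-- right translation `(R y f)(x) = f (x y)` -/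
noncomputable def R (y : H) (f : E H) : E H :=
  (show C₀(H, ℝ) from f).comp ⟨⟨fun x => x * y, continuous_mul_const y⟩,
    (Homeomorph.mulRight y).isClosedEmbedding.tendsto_cocompact⟩

@[simp] lemma R_apply (y : H) (f : E H) (x : H) : R y f x = f (x * y) := rfl

/-- left translation `(L h f)(x) = f (h x)` as a continuous linear map -/
noncomputable def L (h : H) : E H →L[ℝ] E H :=
  LinearMap.mkContinuous
    { toFun := fun f => (show C₀(H, ℝ) from f).comp ⟨⟨fun x => h * x, continuous_const_mul h⟩,
        (Homeomorph.mulLeft h).isClosedEmbedding.tendsto_cocompact⟩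
      map_add' := fun f g => rfl
      map_smul' := fun c f => rfl } 1 (fun f => by
        rw [one_mul]
        exact (norm_le_iff (norm_nonneg f)).2 fun x => abs_le_norm f _)

@[simp] lemma L_apply (h : H) (f : E H) (x : H) : L h f x = f (h * x) := rfl

/-- evaluation -/
noncomputable def ev (x : H) : E H →L[ℝ] ℝ :=
  LinearMap.mkContinuous
    { toFun := fun f => f x
      map_add' := fun f g => rfl
      map_smul' := fun c f => rfl } 1 (fun f => by
        rw [one_mul]
        exact abs_le_norm f _)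

@[simp] lemma ev_apply (x : H) (f : E H) : ev x f = f x := rfl

lemma R_sub (y : H) (f g : E H) : R y (f - g) = R y f - R y g := rfl

lemma norm_R (y : H) (f : E H) : ‖R y f‖ ≤ ‖f‖ :=
  (norm_le_iff (norm_nonneg f)).2 fun x => abs_le_norm f _

lemma unif (f : E H) {ε : ℝ} (hε : 0 < ε) : ∀ᶠ y in 𝓝 (1 : H), ‖R y f - f‖ ≤ ε := by
  let u : UniformSpace H := IsTopologicalGroup.leftUniformSpace H
  have h : UniformContinuous f := ZeroAtInftyContinuousMap.uniformContinuous (show C₀(H, ℝ) from f)
  have h2 := h (Metric.dist_mem_uniformity hε)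
  rw [Filter.mem_map, uniformity_eq_comap_nhds_one_left, Filter.mem_comap] at h2
  obtain ⟨t, ht, hts⟩ := h2
  filter_upwards [ht] with y hy
  refine (norm_le_iff hε.le).2 fun x => ?_
  have h3 : ((x, x * y) : H × H) ∈ (fun p : H × H => p.1⁻¹ * p.2) ⁻¹' t := by
    simpa using hy
  have h4 := hts h3
  simp only [mem_preimage, mem_ofPred_eq] at h4
  rw [dist_comm, Real.dist_eq] at h4
  exact h4.le

lemma continuous_R (f : E H) : Continuous fun y => R y f := by
  rw [continuous_iff_continuousAt]
  intro y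
  rw [ContinuousAt, Metric.tendsto_nhds]
  intro ε hε
  have h1 : Tendsto (fun z : H => y⁻¹ * z) (𝓝 y) (𝓝 1) := by
    have := (continuous_const_mul y⁻¹).tendsto y
    simpa using this
  filter_upwards [h1.eventually (unif f (half_pos hε))] with z hz
  rw [dist_eq_norm]
  have : ‖R z f - R y f‖ ≤ ‖R (y⁻¹ * z) f - f‖ := by
    refine (norm_le_iff (norm_nonneg _)).2 fun x => ?_
    have := abs_le_norm (R (y⁻¹ * z) f - f) (x * y)
    simpa [mul_assoc] using this
  linarith

section P

variable [MeasurableSpace H] [BorelSpace H] [SecondCountableTopology H]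

lemma integrable_R (ρ : Measure H) [IsFiniteMeasure ρ] (f : E H) :
    Integrable (fun y => R y f) ρ :=
  Integrable.of_bound (continuous_R f).aestronglyMeasurable ‖f‖ (.of_forall fun y => norm_R y f)

/-- The averaging operator `(P ρ f)(x) = ∫ f (x y) dρ(y)`. -/
noncomputable def P (ρ : Measure H) [IsFiniteMeasure ρ] : E H →L[ℝ] E H :=
  LinearMap.mkContinuous
    { toFun := fun f => ∫ y, R y f ∂ρ
      map_add' := fun f g => by
        rw [← integral_add (integrable_R ρ f) (integrable_R ρ g)]
        rfl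
      map_smul' := fun c f => by
        rw [RingHom.id_apply, ← integral_smul]
        rfl } (ρ.real univ) (fun f => by
        refine (norm_integral_le_of_norm_le_const (.of_forall fun y => norm_R y f)).trans ?_
        rw [mul_comm])

lemma P_def (ρ : Measure H) [IsFiniteMeasure ρ] (f : E H) : P ρ f = ∫ y, R y f ∂ρ := rfl

lemma P_apply (ρ : Measure H) [IsFiniteMeasure ρ] (f : E H) (x : H) :
    P ρ f x = ∫ y, f (x * y) ∂ρ := by
  rw [P_def, ← ev_apply, ← ContinuousLinearMap.integral_comp_comm _ (integrable_R ρ f)]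
  rfl

lemma norm_P_le (ρ : Measure H) [IsProbabilityMeasure ρ] : ‖P ρ‖ ≤ 1 := by
  refine (LinearMap.mkContinuous_norm_le _ (by positivity) _).trans ?_
  simp

lemma P_nonneg (ρ : Measure H) [IsFiniteMeasure ρ] {f : E H} (hf : ∀ x, 0 ≤ f x) (x : H) :
    0 ≤ P ρ f x := by
  rw [P_apply]
  exact integral_nonneg fun y => hf _

lemma P_L (ρ : Measure H) [IsFiniteMeasure ρ] (h : H) : P ρ * L h = L h * P ρ := by
  ext f x
  simp only [mul_apply_eq_comp, ContinuousLinearMap.comp_apply, L_apply, P_apply, mul_assoc]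

end P

end Pool.Agent.R571.CS
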