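import Mathlib

/-!
# Exponentials of bounded operators: Duhamel's estimate
-/

namespace Pool.Agent.R571.CS

open Filter Topology Set NormedSpace
open scoped Nat

variable {E : Type*} [NormedAddCommGroup E] [NormedSpace ℝ E] [CompleteSpace E]

lemma hasSum_real_exp (x : ℝ) : HasSum (fun n : ℕ => x ^ n / n !) (Real.exp x) := by
  rw [Real.exp_eq_exp_ℝ]
  exact NormedSpace.expSeries_div_hasSum_exp x

lemma hasSum_exp_apply (S : E →L[ℝ] E) (t : ℝ) (f : E) :
    HasSum (fun n : ℕ => (t ^ n / n !) • (S ^ n) f) (exp (t • S) f) := by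
  have h := NormedSpace.exp_series_hasSum_exp' (𝕂 := ℝ) (t • S)
  have h2 := (ContinuousLinearMap.apply ℝ E f).hasSum h
  have e : ∀ n : ℕ, ContinuousLinearMap.apply ℝ E f ((n ! : ℝ)⁻¹ • (t • S) ^ n) =
      (t ^ n / n !) • (S ^ n) f := by
    intro n
    rw [smul_pow, ContinuousLinearMap.apply_apply, smul_apply, smul_apply, smul_smul]
    congr 1
    ring
  simp only [e] at h2
  exact h2

lemma exp_sub_const (S : E →L[ℝ] E) (c t : ℝ) :
    exp (t • (S - c • (1 : E →L[ℝ] E))) = Real.exp (-(t * c)) • exp (t • S) := by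
  have h1 : t • (S - c • (1 : E →L[ℝ] E)) = t • S + algebraMap ℝ (E →L[ℝ] E) (-(t * c)) := by
    rw [Algebra.algebraMap_eq_smul_one, smul_sub, smul_smul, neg_smul, sub_eq_add_neg]
  let _ : NormedAlgebra ℚ (E →L[ℝ] E) := NormedAlgebra.restrictScalars ℚ ℝ _
  rw [h1, NormedSpace.exp_add_of_commute (Algebra.commutes _ _).symm,
    ← NormedSpace.algebraMap_exp_comm, ← Real.exp_eq_exp_ℝ, Algebra.algebraMap_eq_smul_one,
    mul_smul_comm, mul_one]

lemma norm_exp_apply_le (S : E →L[ℝ] E) {t : ℝ} (ht : 0 ≤ t) {c : ℝ} (hS : ‖S‖ ≤ c) (f : E) :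
    ‖exp (t • S) f‖ ≤ Real.exp (t * c) * ‖f‖ := by
  refine (hasSum_exp_apply S t f).norm_le_of_bounded ((hasSum_real_exp (t * c)).mul_right ‖f‖) ?_
  intro n
  have hS0 : 0 ≤ ‖S‖ := norm_nonneg S
  rw [norm_smul, Real.norm_of_nonneg (by positivity)]
  calc t ^ n / n ! * ‖(S ^ n) f‖ ≤ t ^ n / n ! * (‖S ^ n‖ * ‖f‖) := by
        gcongr
        exact ContinuousLinearMap.le_opNorm _ _
    _ ≤ t ^ n / n ! * (c ^ n * ‖f‖) := by
        gcongr
        rcases Nat.eq_zero_or_pos n with rfl | hn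
        · rw [pow_zero, pow_zero]
          exact ContinuousLinearMap.norm_id_le
        · exact (norm_pow_le' S hn).trans (pow_le_pow_left₀ hS0 hS n)
    _ = (t * c) ^ n / n ! * ‖f‖ := by rw [mul_pow]; ring

lemma contraction (S : E →L[ℝ] E) {t : ℝ} (ht : 0 ≤ t) {c : ℝ} (hS : ‖S‖ ≤ c) (f : E) :
    ‖exp (t • (S - c • (1 : E →L[ℝ] E))) f‖ ≤ ‖f‖ := by
  rw [exp_sub_const, smul_apply, norm_smul, Real.norm_of_nonneg (by positivity)]
  calc Real.exp (-(t * c)) * ‖exp (t • S) f‖ ≤ Real.exp (-(t * c)) * (Real.exp (t * c) * ‖f‖) := by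
        gcongr
        exact norm_exp_apply_le S ht hS f
    _ = ‖f‖ := by rw [← mul_assoc, ← Real.exp_add]; simp

lemma duhamel {A A' : E →L[ℝ] E} (hA' : ∀ t : ℝ, 0 ≤ t → ∀ f, ‖exp (t • A') f‖ ≤ ‖f‖) {t : ℝ}
    (ht : 0 ≤ t) {C : ℝ} (f : E) (h : ∀ s ∈ Icc 0 t, ‖(A' - A) (exp (s • A) f)‖ ≤ C) :
    ‖exp (t • A') f - exp (t • A) f‖ ≤ C * t := by
  have h1 : ∀ s : ℝ, HasDerivAt (fun s : ℝ => exp ((t - s) • A') (exp (s • A) f))
      (-(exp ((t - s) • A') ((A' - A) (exp (s • A) f)))) s := by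
    intro s
    have e1 : HasDerivAt (fun s : ℝ => exp ((t - s) • A')) (-(exp ((t - s) • A') * A')) s := by
      have := (hasDerivAt_exp_smul_const A' (t - s)).scomp s
        ((hasDerivAt_id s).const_sub t)
      rw [neg_smul, one_smul] at this
      exact this
    have e2 : HasDerivAt (fun s : ℝ => exp (s • A) f) ((A * exp (s • A)) f) s :=
      (hasDerivAt_exp_smul_const' A s).clm_apply (hasDerivAt_const s f) |>.congr_deriv (by simp)
    refine (e1.clm_apply e2).congr_deriv ?_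
    simp only [mul_apply_eq_comp, neg_apply, sub_apply,
      map_sub]
    abel
  have h2 := norm_image_sub_le_of_norm_deriv_le_segment' (a := 0) (b := t)
    (fun x _ => (h1 x).hasDerivWithinAt) (C := C) (fun x hx => by
      rw [norm_neg]
      exact (hA' _ (by linarith [hx.2]) _).trans (h x ⟨hx.1, hx.2.le⟩)) t ⟨ht, le_rfl⟩
  simp only [sub_self, zero_smul, NormedSpace.exp_zero, sub_zero, one_apply_eq_self] at h2
  rw [norm_sub_rev]
  exact h2

end Pool.Agent.R571.CS
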