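import Pool.Agent.R571.CS.Seq

/-!
# The choice of the sequence of measures and the limit semigroup
-/

namespace Pool.Agent.R571.CS

open MeasureTheory Filter Topology Set
open scoped ZeroAtInfty NNReal ENNReal Nat

variable {H : Type*} [Group H] [TopologicalSpace H] [IsTopologicalGroup H]
  [LocallyCompactSpace H] [SecondCountableTopology H] [T2Space H]
  [MeasurableSpace H] [BorelSpace H]

/-- the finite set of functions controlled at a given stage -/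
def Fs (d e : ℕ → E H) (M : ℕ) : Set (E H) := d '' Iic M ∪ e '' Iic M

/-- the properties of the chosen sequence of measures -/
structure Good (m : Measure H) (d e : ℕ → E H) (ν : ℕ → ProbabilityMeasure H) (M : ℕ → ℕ) :
    Prop where
  le : ∀ n, n ≤ M n
  mono : ∀ n, ∀ k < n, M k ≤ M n
  cons : ∀ n : ℕ, ∀ t ∈ Icc (0 : ℝ) n, ∃ i ≤ M n, 1 - (1 / 2 : ℝ) ^ n ≤ U ν n t (e i) 1
  ac : ∀ n, ∃ C : ℝ≥0∞, C ≠ ∞ ∧ (ν n : Measure H) ≤ C • m
  l1 : ∀ n, ∀ g : H → ℝ≥0∞, Measurable g → ∫⁻ x, ∫⁻ y, g (x * y) ∂(ν n : Measure H) ∂m ≤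
    (1 + (((1 / 2) ^ (n + 1) : ℝ≥0) : ℝ≥0∞)) * ∫⁻ x, g x ∂m
  small : ∀ n : ℕ, ∀ f ∈ Fs d e (M n), ∀ s ∈ Icc (0 : ℝ) (n + 1),
    ‖P (ν n : Measure H) (U ν n s f) - U ν n s f‖ ≤ (1 / 2 : ℝ) ^ n / (n + 1)

lemma exists_good (m : Measure H) [m.IsHaarMeasure] (d e : ℕ → E H)
    (he : ∀ i x, 0 ≤ e i x ∧ e i x ≤ 1) (h1 : Cons e 1 1) : ∃ ν M, Good m d e ν M := by
  have hne : Nonempty (ProbabilityMeasure H) :=
    ⟨(exists_step m (𝒦 := ∅) isCompact_empty one_pos one_ne_zero).choose⟩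
  have key := exists_seq (X := ProbabilityMeasure H × ℕ) (fun n V x => n ≤ x.2 ∧
      (∀ k < n, (V k).2 ≤ x.2) ∧
      (∀ t ∈ Icc (0 : ℝ) n, ∃ i ≤ x.2, 1 - (1 / 2 : ℝ) ^ n ≤ U (fun k => (V k).1) n t (e i) 1) ∧
      (∃ C : ℝ≥0∞, C ≠ ∞ ∧ (x.1 : Measure H) ≤ C • m) ∧
      (∀ g : H → ℝ≥0∞, Measurable g → ∫⁻ x', ∫⁻ y, g (x' * y) ∂(x.1 : Measure H) ∂m ≤
        (1 + (((1 / 2) ^ (n + 1) : ℝ≥0) : ℝ≥0∞)) * ∫⁻ x', g x' ∂m) ∧
      (∀ f ∈ Fs d e x.2, ∀ s ∈ Icc (0 : ℝ) (n + 1),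
        ‖P (x.1 : Measure H) (U (fun k => (V k).1) n s f) - U (fun k => (V k).1) n s f‖ ≤
          (1 / 2 : ℝ) ^ n / (n + 1)))
  suffices h : _ ∧ _ by
    obtain ⟨V, hV⟩ := key h.1 h.2
    exact ⟨fun k => (V k).1, fun k => (V k).2, fun n => (hV n).1, fun n => (hV n).2.1,
      fun n => (hV n).2.2.1, fun n => (hV n).2.2.2.1, fun n => (hV n).2.2.2.2.1,
      fun n => (hV n).2.2.2.2.2⟩
  constructor
  · rintro n V V' x hVV ⟨h1, h2, h3, h4, h5, h6⟩
    have e1 : ∀ t, U (fun k => (V k).1) n t = U (fun k => (V' k).1) n t :=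
      fun t => U_congr (fun k hk => by simp only [hVV k hk]) t
    refine ⟨h1, fun k hk => (hVV k hk) ▸ h2 k hk, ?_, h4, h5, ?_⟩
    · simpa only [e1] using h3
    · simpa only [e1] using h6
  · intro n V
    obtain ⟨N, hN⟩ : ∃ N : ℕ, ∀ t ∈ Icc (0 : ℝ) n, ∃ i ≤ N,
        1 - (1 / 2 : ℝ) ^ n ≤ U (fun k => (V k).1) n t (e i) 1 := by
      refine (isCompact_Icc (a := (0 : ℝ)) (b := n)).induction_on
        (p := fun s => ∃ N : ℕ, ∀ t ∈ s, ∃ i ≤ N,
          1 - (1 / 2 : ℝ) ^ n ≤ U (fun k => (V k).1) n t (e i) 1) ⟨0, by simp⟩ ?_ ?_ ?_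
      · rintro s t hst ⟨N, hN⟩
        exact ⟨N, fun x hx => hN x (hst hx)⟩
      · rintro s t ⟨N, hN⟩ ⟨N', hN'⟩
        refine ⟨max N N', ?_⟩
        rintro x (hx | hx)
        · obtain ⟨i, hi, h⟩ := hN x hx
          exact ⟨i, hi.trans (le_max_left _ _), h⟩
        · obtain ⟨i, hi, h⟩ := hN' x hx
          exact ⟨i, hi.trans (le_max_right _ _), h⟩
      · intro t ht
        have h2 := (Cons.U he h1 n (ν := fun k => (V k).1) ht.1 1).eventually
          (lt_mem_nhds (show 1 - (1 / 2 : ℝ) ^ n < 1 by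
            have : (0 : ℝ) < (1 / 2) ^ n := by positivity
            linarith))
        obtain ⟨i, hi⟩ := h2.exists
        have h3 : Continuous fun t => U (fun k => (V k).1) n t (e i) 1 :=
          (ev (1 : H)).continuous.comp (continuous_U n (e i))
        refine ⟨{s | 1 - (1 / 2 : ℝ) ^ n < U (fun k => (V k).1) n s (e i) 1},
          mem_nhdsWithin_of_mem_nhds (h3.continuousAt.eventually (lt_mem_nhds hi)), i, ?_⟩
        intro s hs
        exact ⟨i, le_rfl, hs.le⟩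
    set M := max (max N n) ((Finset.range n).sup fun k => (V k).2) with hM
    have hfin : (Fs d e M).Finite := ((finite_Iic M).image d).union ((finite_Iic M).image e)
    have hK : IsCompact (⋃ f ∈ Fs d e M,
        (fun s => U (fun k => (V k).1) n s f) '' Icc (0 : ℝ) (n + 1)) :=
      hfin.isCompact_biUnion fun f _ => isCompact_Icc.image (continuous_U n f)
    obtain ⟨ν, hν1, hν2, hν3⟩ := exists_step m hK
      (show (0 : ℝ) < (1 / 2 : ℝ) ^ n / (n + 1) by positivity)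
      (ε := (((1 / 2) ^ (n + 1) : ℝ≥0) : ℝ≥0∞)) (by
        rw [Ne, ENNReal.coe_eq_zero]; positivity)
    refine ⟨(ν, M), ?_, ?_, ?_, hν1, hν2, ?_⟩
    · exact (le_max_right N n).trans (le_max_left _ _)
    · intro k hk
      exact (Finset.le_sup (f := fun k => (V k).2) (Finset.mem_range.2 hk)).trans
        (le_max_right _ _)
    · intro t ht
      obtain ⟨i, hi, h⟩ := hN t ht
      exact ⟨i, hi.trans ((le_max_left N n).trans (le_max_left _ _)), h⟩
    · intro f hf s hs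
      refine hν3 _ ?_
      simp only [mem_iUnion]
      exact ⟨f, hf, s, hs, rfl⟩

end Pool.Agent.R571.CS
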