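import Pool.Agent.R571.CS.Good

/-!
# The limit semigroup
-/

namespace Pool.Agent.R571.CS

open MeasureTheory Filter Topology Set
open scoped ZeroAtInfty NNReal ENNReal Nat

variable {H : Type*} [Group H] [TopologicalSpace H] [IsTopologicalGroup H]
  [LocallyCompactSpace H] [SecondCountableTopology H] [T2Space H]
  [MeasurableSpace H] [BorelSpace H] {m : Measure H} {d e : ℕ → E H}
  {ν : ℕ → ProbabilityMeasure H} {M : ℕ → ℕ}

lemma Good.Fs_mono (G : Good m d e ν M) {k n : ℕ} (h : k ≤ n) : Fs d e (M k) ⊆ Fs d e (M n) := by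
  have h1 : M k ≤ M n := by
    rcases h.eq_or_lt with rfl | h
    · exact le_rfl
    · exact G.mono n k h
  exact union_subset_union (image_mono (Iic_subset_Iic.2 h1)) (image_mono (Iic_subset_Iic.2 h1))

lemma Good.step (G : Good m d e ν M) (n : ℕ) {f : E H} (hf : f ∈ Fs d e (M n)) {t : ℝ}
    (ht : t ∈ Icc (0 : ℝ) (n + 1)) : ‖U ν (n + 1) t f - U ν n t f‖ ≤ (1 / 2 : ℝ) ^ n := by
  have h := duhamel (A := A ν n) (A' := A ν (n + 1))
    (fun t ht f => norm_U_apply_le (n + 1) ht f) ht.1 f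
    (C := (1 / 2 : ℝ) ^ n / (n + 1)) (fun s hs => by
      rw [A_succ_sub]
      exact G.small n f hf s ⟨hs.1, hs.2.trans ht.2⟩)
  refine h.trans ?_
  calc (1 / 2 : ℝ) ^ n / (n + 1) * t ≤ (1 / 2 : ℝ) ^ n / (n + 1) * (n + 1) := by
        gcongr
        exact ht.2
    _ = _ := by field_simp

lemma Good.steps (G : Good m d e ν M) (n : ℕ) {f : E H} (hf : f ∈ Fs d e (M n)) {t : ℝ}
    (ht : t ∈ Icc (0 : ℝ) n) (j : ℕ) :
    ‖U ν (n + j) t f - U ν n t f‖ ≤ 2 * (1 / 2 : ℝ) ^ n - 2 * (1 / 2 : ℝ) ^ (n + j) := by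
  induction j with
  | zero => simp
  | succ j ih =>
    have h1 := G.step (n + j) (G.Fs_mono (Nat.le_add_right n j) hf) (t := t)
      ⟨ht.1, ht.2.trans (by push_cast; linarith [(Nat.cast_nonneg j : (0 : ℝ) ≤ j)])⟩
    have h2 := norm_add_le (U ν (n + j + 1) t f - U ν (n + j) t f) (U ν (n + j) t f - U ν n t f)
    rw [sub_add_sub_cancel] at h2
    rw [← add_assoc, pow_succ (1 / 2 : ℝ) (n + j)]
    linarith

lemma Good.steps' (G : Good m d e ν M) {n n' : ℕ} (hn : n ≤ n') {f : E H}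
    (hf : f ∈ Fs d e (M n)) {t : ℝ} (ht : t ∈ Icc (0 : ℝ) n) :
    ‖U ν n' t f - U ν n t f‖ ≤ 2 * (1 / 2 : ℝ) ^ n := by
  obtain ⟨j, rfl⟩ := Nat.exists_eq_add_of_le hn
  have := G.steps n hf ht j
  have : (0 : ℝ) < (1 / 2) ^ (n + j) := by positivity
  linarith

lemma tendsto_half : Tendsto (fun n : ℕ => 2 * (1 / 2 : ℝ) ^ n) atTop (𝓝 0) := by
  have := (tendsto_pow_atTop_nhds_zero_of_lt_one (r := (1 / 2 : ℝ)) (by norm_num)
    (by norm_num)).const_mul 2
  simpa using this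

lemma Good.cauchy (G : Good m d e ν M) (hd : DenseRange d) (f : E H) {ε : ℝ} (hε : 0 < ε) :
    ∃ N : ℕ, ∀ n, N ≤ n → ∀ n', n ≤ n' → ∀ t ∈ Icc (0 : ℝ) n, ‖U ν n' t f - U ν n t f‖ ≤ ε := by
  obtain ⟨i, hi⟩ := hd.exists_dist_lt f (show (0 : ℝ) < ε / 3 by positivity)
  rw [dist_eq_norm] at hi
  obtain ⟨N, hN⟩ := (tendsto_half.eventually (gt_mem_nhds (show (0 : ℝ) < ε / 3 by positivity))).exists_forall_of_atTop
  refine ⟨max N i, fun n hn n' hn' t ht => ?_⟩
  have h1 : d i ∈ Fs d e (M n) :=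
    Or.inl ⟨i, ((le_max_right N i).trans hn).trans (G.le n), rfl⟩
  have h2 := G.steps' hn' h1 ht
  have h3 := hN n ((le_max_left N i).trans hn)
  have h4 := norm_U_apply_le (ν := ν) n ht.1 (f - d i)
  have h5 := norm_U_apply_le (ν := ν) n' ht.1 (f - d i)
  have h6 : U ν n' t f - U ν n t f =
      U ν n' t (f - d i) + (U ν n' t (d i) - U ν n t (d i)) - U ν n t (f - d i) := by
    rw [map_sub, map_sub]; abel
  rw [h6]
  have h7 := norm_sub_le (U ν n' t (f - d i) + (U ν n' t (d i) - U ν n t (d i)))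
    (U ν n t (f - d i))
  have h8 := norm_add_le (U ν n' t (f - d i)) (U ν n' t (d i) - U ν n t (d i))
  linarith

lemma Good.exists_T (G : Good m d e ν M) (hd : DenseRange d) :
    ∃ T : ℝ → E H → E H, ∀ t, 0 ≤ t → ∀ f, Tendsto (fun n => U ν n t f) atTop (𝓝 (T t f)) := by
  have h : ∀ t : ℝ, ∀ f : E H, ∃ g, 0 ≤ t → Tendsto (fun n => U ν n t f) atTop (𝓝 g) := by
    intro t f
    rcases lt_or_ge t 0 with ht | ht
    · exact ⟨0, fun h => absurd h (not_le.2 ht)⟩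
    · have h1 : CauchySeq fun n => U ν n t f := by
        rw [Metric.cauchySeq_iff']
        intro ε hε
        obtain ⟨N, hN⟩ := G.cauchy hd f (half_pos hε)
        obtain ⟨k, hk⟩ := exists_nat_ge t
        refine ⟨max N k, fun n hn => ?_⟩
        rw [dist_eq_norm]
        refine (hN (max N k) (le_max_left _ _) n hn t ⟨ht, hk.trans ?_⟩).trans_lt (half_lt_self hε)
        exact_mod_cast le_max_right N k
      obtain ⟨g, hg⟩ := cauchySeq_tendsto_of_complete h1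
      exact ⟨g, fun _ => hg⟩
  choose T hT using h
  exact ⟨T, fun t ht f => hT t f ht⟩

variable {T : ℝ → E H → E H}

section

variable (hT : ∀ t, 0 ≤ t → ∀ f, Tendsto (fun n => U ν n t f) atTop (𝓝 (T t f)))
include hT

lemma T_add {t : ℝ} (ht : 0 ≤ t) (f g : E H) : T t (f + g) = T t f + T t g := by
  refine tendsto_nhds_unique (hT t ht (f + g)) ?_
  simpa only [map_add] using (hT t ht f).add (hT t ht g)

lemma T_sub {t : ℝ} (ht : 0 ≤ t) (f g : E H) : T t (f - g) = T t f - T t g := by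
  refine tendsto_nhds_unique (hT t ht (f - g)) ?_
  simpa only [map_sub] using (hT t ht f).sub (hT t ht g)

lemma T_smul {t : ℝ} (ht : 0 ≤ t) (c : ℝ) (f : E H) : T t (c • f) = c • T t f := by
  refine tendsto_nhds_unique (hT t ht (c • f)) ?_
  simpa only [map_smul] using (hT t ht f).const_smul c

lemma T_norm_le {t : ℝ} (ht : 0 ≤ t) (f : E H) : ‖T t f‖ ≤ ‖f‖ :=
  le_of_tendsto (hT t ht f).norm (.of_forall fun n => norm_U_apply_le n ht f)

lemma T_zero (f : E H) : T 0 f = f := by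
  refine tendsto_nhds_unique (hT 0 le_rfl f) ?_
  simp only [U_zero]
  exact tendsto_const_nhds

lemma T_nonneg {t : ℝ} (ht : 0 ≤ t) {f : E H} (hf : ∀ x, 0 ≤ f x) (x : H) : 0 ≤ T t f x :=
  ge_of_tendsto (((ev x).continuous.tendsto _).comp (hT t ht f))
    (.of_forall fun n => U_nonneg n ht hf x)

lemma T_L {t : ℝ} (ht : 0 ≤ t) (f : E H) (h : H) : T t (L h f) = L h (T t f) := by
  refine tendsto_nhds_unique (hT t ht (L h f)) ?_
  have h1 : ∀ n, U ν n t (L h f) = L h (U ν n t f) := fun n => by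
    rw [← mul_apply_eq_comp, ← mul_apply_eq_comp, U_L]
  simp only [h1]
  exact ((L h).continuous.tendsto _).comp (hT t ht f)

lemma T_T {s t : ℝ} (hs : 0 ≤ s) (ht : 0 ≤ t) (f : E H) : T (s + t) f = T s (T t f) := by
  refine tendsto_nhds_unique (hT (s + t) (add_nonneg hs ht) f) ?_
  have h1 : ∀ n, U ν n (s + t) f = U ν n s (U ν n t f - T t f) + U ν n s (T t f) := fun n => by
    rw [U_add, mul_apply_eq_comp, map_sub, sub_add_cancel]
  simp only [h1]
  have h2 : Tendsto (fun n => U ν n s (U ν n t f - T t f)) atTop (𝓝 0) := by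
    have h3 : Tendsto (fun n => ‖U ν n t f - T t f‖) atTop (𝓝 0) := by
      have := ((hT t ht f).sub_const (T t f)).norm
      simpa using this
    exact squeeze_zero_norm (fun n => norm_U_apply_le n hs _) h3
  simpa using h2.add (hT s hs (T t f))

lemma T_cont (G : Good m d e ν M) (hd : DenseRange d) (f : E H) :
    Tendsto (fun t => T t f) (𝓝[≥] 0) (𝓝 f) := by
  rw [Metric.tendsto_nhds]
  intro ε hε
  obtain ⟨N, hN⟩ := G.cauchy hd f (half_pos hε)
  have h1 : ∀ t ∈ Icc (0 : ℝ) ((N + 1 : ℕ) : ℝ), ‖T t f - U ν (N + 1) t f‖ ≤ ε / 2 := by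
    intro t ht
    refine le_of_tendsto ((hT t ht.1 f).sub_const (U ν (N + 1) t f)).norm ?_
    filter_upwards [eventually_ge_atTop (N + 1)] with n hn
    exact hN (N + 1) (Nat.le_succ N) n hn t ht
  have h2 : Tendsto (fun t => U ν (N + 1) t f) (𝓝[≥] 0) (𝓝 f) := by
    have := (continuous_U (ν := ν) (N + 1) f).tendsto 0
    rw [U_zero] at this
    exact this.mono_left nhdsWithin_le_nhds
  have h3 : ∀ᶠ t in 𝓝[≥] (0 : ℝ), t ∈ Icc (0 : ℝ) ((N + 1 : ℕ) : ℝ) :=
    Icc_mem_nhdsGE (by positivity)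
  filter_upwards [h3, (Metric.tendsto_nhds.1 h2) (ε / 2) (half_pos hε)] with t ht1 ht2
  have := dist_triangle (T t f) (U ν (N + 1) t f) f
  rw [dist_eq_norm (T t f) (U ν (N + 1) t f)] at this
  linarith [h1 t ht1]

lemma T_cons (G : Good m d e ν M) {t : ℝ} {n : ℕ} (ht : t ∈ Icc (0 : ℝ) n) :
    ∃ i, 1 - 3 * (1 / 2 : ℝ) ^ n ≤ T t (e i) 1 := by
  obtain ⟨i, hi, h⟩ := G.cons n t ht
  refine ⟨i, ?_⟩
  have h1 : ‖T t (e i) - U ν n t (e i)‖ ≤ 2 * (1 / 2 : ℝ) ^ n := by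
    refine le_of_tendsto ((hT t ht.1 (e i)).sub_const (U ν n t (e i))).norm ?_
    filter_upwards [eventually_ge_atTop n] with k hk
    exact G.steps' hk (Or.inr ⟨i, hi, rfl⟩) ht
  have h2 := abs_le_norm (T t (e i) - U ν n t (e i)) 1
  rw [E.sub_apply] at h2
  have h3 := (abs_le.1 (h2.trans h1)).1
  linarith

end

end Pool.Agent.R571.CS
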