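import Pool.Agent.R571.CS.Sep

/-!
# Absolutely continuous convolution semigroups
-/

namespace Pool.Agent.R571.CS

open MeasureTheory Filter Topology Set TopologicalSpace
open scoped ZeroAtInfty NNReal ENNReal CompactlySupported

variable {H : Type*} [Group H] [TopologicalSpace H] [IsTopologicalGroup H]
  [LocallyCompactSpace H] [SecondCountableTopology H] [T2Space H]
  [MeasurableSpace H] [BorelSpace H]

/-- two finite measures which agree on `C₀` are equal -/
lemma ext_E {μ μ' : Measure H} [IsFiniteMeasure μ] [IsFiniteMeasure μ']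
    (h : ∀ f : E H, ∫ x, f x ∂μ = ∫ x, f x ∂μ') : μ = μ' :=
  Measure.ext_of_integral_eq_on_compactlySupported fun f => h (toE f)

lemma integral_mconv (μ μ' : Measure H) [IsFiniteMeasure μ] [IsFiniteMeasure μ'] (f : E H) :
    ∫ x, f x ∂(μ ∗ₘ μ') = ∫ x, ∫ y, f (x * y) ∂μ' ∂μ := by
  rw [Measure.mconv, integral_map measurable_mul.aemeasurable
    (map_continuous f).aestronglyMeasurable]
  rw [integral_prod]
  refine Integrable.of_bound (C := ‖f‖) ?_ (.of_forall fun x => abs_le_norm f _)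
  exact ((map_continuous f).comp continuous_mul).aestronglyMeasurable

lemma compact_null {m μ : Measure H} [m.IsHaarMeasure] [IsFiniteMeasure μ] {a C : ℝ} (hC : 0 ≤ C)
    (h : ∀ f : E H, I m f ≠ ∞ → ∫ x, f x ∂μ ≤ a * ‖f‖ + C * (I m f).toReal) (ha : 0 ≤ a)
    {K : Set H} (hK : IsCompact K) (hm : m K = 0) : μ.real K ≤ a := by
  refine le_of_forall_pos_le_add fun ε hε => ?_
  have hδ : 0 < ε / (C + 1) := by positivity
  obtain ⟨U, hKU, hU, hmU⟩ := K.exists_isOpen_lt_of_lt (μ := m) (ENNReal.ofReal (ε / (C + 1)))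
    (by rw [hm]; exact ENNReal.ofReal_pos.2 hδ)
  obtain ⟨f, hf1, hf0, hf2, hf3⟩ := exists_continuous_one_zero_of_isCompact hK hU.isClosed_compl
      (disjoint_compl_right_iff_subset.2 hKU)
  set g : E H := toE ⟨f, hf2⟩ with hg
  have hg3 : ∀ x, g x ∈ Icc (0 : ℝ) 1 := hf3
  have hI : I m g ≤ ENNReal.ofReal (ε / (C + 1)) := by
    refine le_trans ?_ hmU.le
    rw [← lintegral_indicator_one hU.measurableSet, I]
    refine lintegral_mono fun x => ?_
    by_cases hx : x ∈ U
    · rw [indicator_of_mem hx, Pi.one_apply, Real.enorm_of_nonneg (hg3 x).1,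
        ENNReal.ofReal_le_one]
      exact (hg3 x).2
    · rw [indicator_of_notMem hx]
      have : g x = 0 := hf0 hx
      rw [this, enorm_zero]
  have hg1 : ‖g‖ ≤ 1 := (norm_le_iff zero_le_one).2 fun x =>
    abs_le.2 ⟨by linarith [(hg3 x).1], (hg3 x).2⟩
  have h1 := h g (hI.trans_lt ENNReal.ofReal_lt_top).ne
  have h2 : (I m g).toReal ≤ ε / (C + 1) := ENNReal.toReal_le_of_le_ofReal hδ.le hI
  have h3 : μ.real K ≤ ∫ x, g x ∂μ := by
    rw [← integral_indicator_one hK.measurableSet]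
    refine integral_mono ((integrable_const (1 : ℝ)).indicator hK.measurableSet)
      (integrable_E μ g) fun x => ?_
    by_cases hx : x ∈ K
    · rw [indicator_of_mem hx]
      exact (hf1 hx).ge
    · rw [indicator_of_notMem hx]
      exact (hg3 x).1
  have h4 : C * (I m g).toReal ≤ ε := by
    calc C * (I m g).toReal ≤ (C + 1) * (ε / (C + 1)) := by gcongr; linarith
      _ = ε := by field_simp
  have h5 : a * ‖g‖ ≤ a := mul_le_of_le_one_right ha hg1
  linarith

theorem main (m : Measure H) [m.IsHaarMeasure] : ∃ μ : ℝ≥0 → Measure H,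
    (∀ t, IsProbabilityMeasure (μ t)) ∧ μ 0 = Measure.dirac 1 ∧
    (∀ s t, μ (s + t) = μ s ∗ₘ μ t) ∧
    (∀ f : E H, Tendsto (fun t => ∫ x, f x ∂(μ t)) (𝓝 0) (𝓝 (f 1))) ∧
    (∀ t, 0 < t → μ t ≪ m) := by
  obtain ⟨d, hd⟩ := exists_dense H
  obtain ⟨e, he, he1⟩ := exists_e H
  obtain ⟨ν, M, G⟩ := exists_good m d e he he1
  obtain ⟨T, hT⟩ := G.exists_T hd
  have hrep : ∀ t : ℝ≥0, ∃ μ : Measure H, μ univ ≤ 1 ∧ ∀ f : E H, ∫ x, f x ∂μ = T t f 1 := by
    intro t
    exact exists_rep
      { toFun := fun f => T t f 1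
        map_add' := fun f g => by rw [T_add hT t.coe_nonneg]; rfl
        map_smul' := fun c f => by rw [T_smul hT t.coe_nonneg]; rfl }
      (fun f hf => T_nonneg hT t.coe_nonneg hf 1) (fun f => (abs_le_norm _ _).trans (T_norm_le hT t.coe_nonneg f))
  choose μ hμ1 hμ using hrep
  have hfin : ∀ t, IsFiniteMeasure (μ t) := fun t => ⟨(hμ1 t).trans_lt ENNReal.one_lt_top⟩
  have hprob : ∀ t, IsProbabilityMeasure (μ t) := by
    intro t
    refine ⟨le_antisymm (hμ1 t) ?_⟩
    have h1 : ∀ n : ℕ, (t : ℝ) ≤ n → 1 - 3 * (1 / 2 : ℝ) ^ n ≤ (μ t).real univ := by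
      intro n hn
      obtain ⟨i, hi⟩ := T_cons hT G (t := t) (n := n) ⟨t.coe_nonneg, hn⟩
      refine hi.trans ?_
      rw [← hμ]
      calc ∫ x, e i x ∂(μ t) ≤ ∫ _, (1 : ℝ) ∂(μ t) :=
            integral_mono (integrable_E _ _) (integrable_const _) fun x => (he i x).2
        _ = _ := by simp
    have h2 : (1 : ℝ) ≤ (μ t).real univ := by
      have h3 : Tendsto (fun n : ℕ => 1 - 3 * (1 / 2 : ℝ) ^ n) atTop (𝓝 (1 - 3 * 0)) :=
        ((tendsto_pow_atTop_nhds_zero_of_lt_one (r := (1 / 2 : ℝ)) (by norm_num)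
          (by norm_num)).const_mul 3).const_sub 1
      rw [mul_zero, sub_zero] at h3
      obtain ⟨k, hk⟩ := exists_nat_ge (t : ℝ)
      refine le_of_tendsto h3 ?_
      filter_upwards [eventually_ge_atTop k] with n hn
      exact h1 n (hk.trans (by exact_mod_cast hn))
    have h3 := (ENNReal.ofReal_le_iff_le_toReal (measure_ne_top (μ t) univ)).2 h2
    simpa using h3
  have hx : ∀ (t : ℝ≥0) (f : E H) (x : H), T t f x = ∫ y, f (x * y) ∂(μ t) := by
    intro t f x
    have h1 := hμ t (L x f)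
    rw [T_L hT t.coe_nonneg, L_apply, mul_one] at h1
    rw [← h1]
    rfl
  refine ⟨μ, hprob, ?_, ?_, ?_, ?_⟩
  · refine ext_E fun f => ?_
    rw [hμ, NNReal.coe_zero, T_zero hT, integral_dirac]
  · intro s t
    have hc : IsFiniteMeasure (μ s ∗ₘ μ t) := inferInstance
    refine ext_E fun f => ?_
    rw [integral_mconv, hμ, NNReal.coe_add, T_T hT s.coe_nonneg t.coe_nonneg, ← hμ s]
    simp only [hx]
  · intro f
    have h1 := T_cont hT G hd f
    have h2 : Tendsto (fun t : ℝ≥0 => (t : ℝ)) (𝓝 0) (𝓝[≥] 0) := by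
      refine tendsto_nhdsWithin_iff.2 ⟨?_, .of_forall fun t => t.coe_nonneg⟩
      exact NNReal.continuous_coe.tendsto 0
    have h3 := ((ev (1 : H)).continuous.tendsto f).comp (h1.comp h2)
    refine h3.congr fun t => ?_
    rw [hμ]
    rfl
  · intro t ht
    have hcpt : ∀ K : Set H, IsCompact K → m K = 0 → μ t K = 0 := by
      intro K hK hm
      have h1 : ∀ n : ℕ, (μ t).real K ≤ Real.exp (-(t * n)) := by
        intro n
        obtain ⟨C, hC, h⟩ := T_bound hT G n
        refine compact_null (m := m) (C := t * C * Real.exp t) (by positivity) (fun f hf => ?_)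
          (Real.exp_nonneg _) hK hm
        rw [hμ]
        exact (le_abs_self _).trans ((abs_le_norm _ _).trans (h t t.coe_nonneg f hf))
      have h2 : Tendsto (fun n : ℕ => Real.exp (-(t * n))) atTop (𝓝 0) := by
        refine Real.tendsto_exp_neg_atTop_nhds_zero.comp ?_
        exact tendsto_natCast_atTop_atTop.const_mul_atTop (by exact_mod_cast ht)
      have h3 : (μ t).real K ≤ 0 := ge_of_tendsto' h2 h1
      have h4 : (μ t).real K = 0 := le_antisymm h3 measureReal_nonneg
      rwa [measureReal_eq_zero_iff] at h4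
    refine Measure.AbsolutelyContinuous.mk fun B hB hm => ?_
    rw [hB.measure_eq_iSup_isCompact_of_ne_top (measure_ne_top _ _)]
    simp only [ENNReal.iSup_eq_zero]
    intro K hKB hK
    exact hcpt K hK (measure_mono_null hKB hm)

end Pool.Agent.R571.CS
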