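import Pool.Agent.R571.CS.Basic

/-!
# Representation of positive functionals on `C₀(H)`, density and separability
-/

namespace Pool.Agent.R571.CS

open MeasureTheory Filter Topology Set
open scoped ZeroAtInfty NNReal ENNReal CompactlySupported

variable {H : Type*} [Group H] [TopologicalSpace H] [IsTopologicalGroup H]
  [LocallyCompactSpace H] [SecondCountableTopology H] [T2Space H]

/-- compactly supported functions vanish at infinity -/
noncomputable def toE (f : C_c(H, ℝ)) : E H :=
  (⟨f.toContinuousMap, zero_at_infty f⟩ : C₀(H, ℝ))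

@[simp] lemma toE_apply (f : C_c(H, ℝ)) (x : H) : toE f x = f x := rfl

lemma exists_Cc_near (f : E H) {ε : ℝ} (hε : 0 < ε) : ∃ g : C_c(H, ℝ), ‖f - toE g‖ ≤ ε := by
  have hc : Continuous f := map_continuous f
  have h0 : ∀ᶠ x in cocompact H, |f x| < ε := by
    have := (zero_at_infty f).eventually (Metric.ball_mem_nhds 0 hε)
    filter_upwards [this] with x hx
    simpa using hx
  obtain ⟨K, hK, hK2⟩ := mem_cocompact.1 h0
  let g : H → ℝ := fun x => max (f x - ε) 0 + min (f x + ε) 0
  have hg : Continuous g := by fun_prop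
  have hgs : HasCompactSupport g := by
    refine HasCompactSupport.intro hK fun x hx => ?_
    have h1 : |f x| < ε := hK2 hx
    rw [abs_lt] at h1
    simp only [g]
    rw [max_eq_right (by linarith), min_eq_right (by linarith), add_zero]
  refine ⟨⟨⟨g, hg⟩, hgs⟩, (norm_le_iff hε.le).2 fun x => ?_⟩
  rw [E.sub_apply, toE_apply]
  change |f x - (max (f x - ε) 0 + min (f x + ε) 0)| ≤ ε
  rw [abs_le]
  rcases le_total (f x - ε) 0 with h1 | h1 <;> rcases le_total (f x + ε) 0 with h2 | h2 <;>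
    simp only [max_eq_right, max_eq_left, min_eq_left, min_eq_right, h1, h2] <;>
    constructor <;> linarith

variable [MeasurableSpace H] [BorelSpace H]

lemma integrable_E (μ : Measure H) [IsFiniteMeasure μ] (f : E H) : Integrable f μ :=
  Integrable.of_bound (map_continuous f).aestronglyMeasurable ‖f‖
    (.of_forall fun x => abs_le_norm f x)

lemma exists_rep (φ : E H →ₗ[ℝ] ℝ) (hpos : ∀ f : E H, (∀ x, 0 ≤ f x) → 0 ≤ φ f)
    (hφ : ∀ f, |φ f| ≤ ‖f‖) :
    ∃ μ : Measure H, μ univ ≤ 1 ∧ ∀ f : E H, ∫ x, f x ∂μ = φ f := by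
  let Λ : C_c(H, ℝ) →ₚ[ℝ] ℝ := PositiveLinearMap.mk₀
    { toFun := fun f => φ (toE f)
      map_add' := fun f g => by rw [← map_add]; rfl
      map_smul' := fun c f => by rw [RingHom.id_apply, ← map_smul]; rfl }
    fun f hf => hpos _ fun x => hf x
  have hΛ : ∀ f, Λ f = φ (toE f) := fun f => rfl
  have h1 : RealRMK.rieszMeasure Λ univ ≤ 1 := by
    rw [isOpen_univ.measure_eq_iSup_isCompact]
    refine iSup₂_le fun K _ => iSup_le fun hK => ?_
    obtain ⟨f, hf1, -, hf2, hf3⟩ := exists_continuous_one_zero_of_isCompact hK isClosed_empty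
      (disjoint_empty K)
    refine (RealRMK.rieszMeasure_le_of_eq_one Λ (f := ⟨f, hf2⟩) (fun x => (hf3 x).1) hK
      (fun x hx => hf1 hx)).trans ?_
    rw [hΛ, ENNReal.ofReal_le_one]
    refine (le_abs_self _).trans ((hφ _).trans ?_)
    refine (norm_le_iff zero_le_one).2 fun x => ?_
    change |f x| ≤ 1
    exact abs_le.2 ⟨by linarith [(hf3 x).1], (hf3 x).2⟩
  refine ⟨RealRMK.rieszMeasure Λ, h1, fun f => ?_⟩
  have hfin : IsFiniteMeasure (RealRMK.rieszMeasure Λ) := ⟨h1.trans_lt ENNReal.one_lt_top⟩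
  refine eq_of_forall_dist_le fun ε hε => ?_
  obtain ⟨g, hg⟩ := exists_Cc_near f (half_pos hε)
  have h2 : ∫ x, toE g x ∂(RealRMK.rieszMeasure Λ) = φ (toE g) := RealRMK.integral_rieszMeasure Λ g
  have h3 : ∫ x, f x ∂(RealRMK.rieszMeasure Λ) - ∫ x, toE g x ∂(RealRMK.rieszMeasure Λ) =
      ∫ x, (f - toE g) x ∂(RealRMK.rieszMeasure Λ) := by
    rw [← integral_sub (integrable_E _ f) (integrable_E _ (toE g))]
    rfl
  have h4 : |∫ x, (f - toE g) x ∂(RealRMK.rieszMeasure Λ)| ≤ ε / 2 := by
    refine (norm_integral_le_of_norm_le_const (C := ε / 2) (f := fun x => (f - toE g) x)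
      (.of_forall fun x => (abs_le_norm (f - toE g) x).trans hg)).trans ?_
    refine mul_le_of_le_one_right (by positivity) ?_
    exact ENNReal.toReal_le_of_le_ofReal zero_le_one (by simpa using h1)
  have h5 : |φ f - φ (toE g)| ≤ ε / 2 := by
    rw [← map_sub]
    exact (hφ _).trans hg
  rw [Real.dist_eq]
  rw [← h3, h2] at h4
  rw [abs_le] at *
  constructor <;> linarith [h4.1, h4.2, h5.1, h5.2]

end Pool.Agent.R571.CS
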