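import Pool.Agent.R571.CS.Rep
import Pool.Agent.R571.CS.AC

/-!
# Separability of `C₀(H)`, and the semigroup of measures
-/

namespace Pool.Agent.R571.CS

open MeasureTheory Filter Topology Set TopologicalSpace
open scoped ZeroAtInfty NNReal ENNReal CompactlySupported

variable {H : Type*} [Group H] [TopologicalSpace H] [IsTopologicalGroup H]
  [LocallyCompactSpace H] [SecondCountableTopology H] [T2Space H]

/-- functions supported in the compact set `K` -/
def FK (K : Set H) : Set (E H) := {f | ∀ x ∉ K, f x = 0}

lemma isSeparable_FK {K : Set H} (hK : IsCompact K) : IsSeparable (FK K) := by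
  have : CompactSpace K := isCompact_iff_compactSpace.1 hK
  let r : FK K → C(K, ℝ) := fun f => ⟨fun x => f.1 x.1, (map_continuous f.1).comp continuous_subtype_val⟩
  have hr : Isometry r := by
    refine Isometry.of_dist_eq fun f g => ?_
    rw [dist_eq_norm, Subtype.dist_eq, dist_eq_norm]
    refine le_antisymm ?_ ?_
    · refine (ContinuousMap.norm_le _ (norm_nonneg _)).2 fun x => ?_
      exact abs_le_norm (f.1 - g.1) x.1
    · refine (norm_le_iff (norm_nonneg _)).2 fun x => ?_
      by_cases hx : x ∈ K
      · exact (r f - r g).norm_coe_le_norm ⟨x, hx⟩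
      · rw [E.sub_apply, f.2 x hx, g.2 x hx]
        simp
  have : SecondCountableTopology (FK K) := hr.isEmbedding.isInducing.secondCountableTopology
  exact IsSeparable.of_subtype _

lemma exists_dense (H : Type*) [Group H] [TopologicalSpace H] [IsTopologicalGroup H]
    [LocallyCompactSpace H] [SecondCountableTopology H] [T2Space H] :
    ∃ d : ℕ → E H, DenseRange d := by
  let K := CompactExhaustion.choice H
  have h1 : IsSeparable (⋃ n, FK (K n)) := IsSeparable.iUnion fun n => isSeparable_FK (K.isCompact n)
  have h2 : closure (⋃ n, FK (K n)) = univ := by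
    refine eq_univ_of_forall fun f => ?_
    rw [Metric.mem_closure_iff]
    intro ε hε
    obtain ⟨g, hg⟩ := exists_Cc_near f (half_pos hε)
    refine ⟨toE g, ?_, by rw [dist_eq_norm]; linarith⟩
    obtain ⟨n, hn⟩ := K.exists_superset_of_isCompact g.hasCompactSupport
    refine mem_iUnion.2 ⟨n, fun x hx => ?_⟩
    exact image_eq_zero_of_notMem_tsupport fun h => hx (hn h)
  have h3 : IsSeparable (univ : Set (E H)) := h2 ▸ h1.closure
  have : SeparableSpace (E H) := isSeparable_univ_iff.1 h3
  exact ⟨denseSeq (E H), denseRange_denseSeq _⟩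

/-- an increasing approximation of the constant function one -/
lemma exists_e (H : Type*) [Group H] [TopologicalSpace H] [IsTopologicalGroup H]
    [LocallyCompactSpace H] [SecondCountableTopology H] [T2Space H] :
    ∃ e : ℕ → E H, (∀ i x, 0 ≤ e i x ∧ e i x ≤ 1) ∧ Cons e 1 1 := by
  let K := CompactExhaustion.choice H
  have h : ∀ n, ∃ f : E H, (∀ x, 0 ≤ f x ∧ f x ≤ 1) ∧ ∀ x ∈ K n, f x = 1 := by
    intro n
    obtain ⟨f, hf1, -, hf2, hf3⟩ := exists_continuous_one_zero_of_isCompact (K.isCompact n)
      isClosed_empty (disjoint_empty (K n))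
    exact ⟨toE ⟨f, hf2⟩, hf3, hf1⟩
  choose e he1 he2 using h
  refine ⟨e, he1, fun x => ?_⟩
  obtain ⟨n, hn⟩ := K.exists_mem x
  refine tendsto_const_nhds.congr' ?_
  filter_upwards [eventually_ge_atTop n] with k hk
  exact (he2 k x (K.subset hk hn)).symm

end Pool.Agent.R571.CS
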