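import Pool.Agent.R571.CS.Ty

/-!
# The approximating semigroups and the choice of the sequence of measures
-/

namespace Pool.Agent.R571.CS

open MeasureTheory Filter Topology Set
open scoped ZeroAtInfty NNReal ENNReal Nat

lemma exists_seq {X : Type*} [Nonempty X] (Q : ℕ → (ℕ → X) → X → Prop)
    (hQ : ∀ n V V' x, (∀ k < n, V k = V' k) → Q n V x → Q n V' x) (h : ∀ n V, ∃ x, Q n V x) :
    ∃ V : ℕ → X, ∀ n, Q n V (V n) := by
  choose f hf using h
  let W : ℕ → (ℕ → X) := fun n => Nat.rec (fun _ => Classical.arbitrary X)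
    (fun n w => Function.update w n (f n w)) n
  have hW : ∀ n, W (n + 1) = Function.update (W n) n (f n (W n)) := fun n => rfl
  have hagree : ∀ n, ∀ k < n, W n k = f k (W k) := by
    intro n
    induction n with
    | zero => intro k hk; omega
    | succ n ih =>
      intro k hk
      rw [hW]
      rcases Nat.lt_succ_iff_lt_or_eq.1 hk with h1 | rfl
      · rw [Function.update_of_ne h1.ne, ih k h1]
      · rw [Function.update_self]
  exact ⟨fun n => f n (W n), fun n => hQ n (W n) _ _ (hagree n) (hf n (W n))⟩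

variable {H : Type*} [Group H] [TopologicalSpace H] [IsTopologicalGroup H]
  [LocallyCompactSpace H] [SecondCountableTopology H] [T2Space H]
  [MeasurableSpace H] [BorelSpace H]

/-- the sum of the first `n` averaging operators -/
noncomputable def S (ν : ℕ → ProbabilityMeasure H) (n : ℕ) : E H →L[ℝ] E H :=
  ∑ k ∈ Finset.range n, P (ν k : Measure H)

/-- the generator of the `n`-th approximating semigroup -/
noncomputable def A (ν : ℕ → ProbabilityMeasure H) (n : ℕ) : E H →L[ℝ] E H :=
  S ν n - (n : ℝ) • (1 : E H →L[ℝ] E H)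

/-- the `n`-th approximating semigroup -/
noncomputable def U (ν : ℕ → ProbabilityMeasure H) (n : ℕ) (t : ℝ) : E H →L[ℝ] E H :=
  NormedSpace.exp (t • A ν n)

variable {ν ν' : ℕ → ProbabilityMeasure H}

lemma S_succ (n : ℕ) : S ν (n + 1) = S ν n + P (ν n : Measure H) := Finset.sum_range_succ _ _

lemma S_congr {n : ℕ} (h : ∀ k < n, ν k = ν' k) : S ν n = S ν' n :=
  Finset.sum_congr rfl fun k hk =>
    congrArg (fun μ : ProbabilityMeasure H => P (μ : Measure H)) (h k (Finset.mem_range.1 hk))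

lemma U_congr {n : ℕ} (h : ∀ k < n, ν k = ν' k) (t : ℝ) : U ν n t = U ν' n t := by
  rw [U, U, A, A, S_congr h]

lemma A_succ_sub (n : ℕ) : A ν (n + 1) - A ν n = P (ν n : Measure H) - 1 := by
  rw [A, A, S_succ]
  push_cast
  rw [add_smul, one_smul]
  abel

lemma norm_S_le (n : ℕ) : ‖S ν n‖ ≤ n := by
  refine (norm_sum_le _ _).trans ?_
  refine (Finset.sum_le_sum fun k _ => norm_P_le (ν k : Measure H)).trans ?_
  simp

lemma norm_U_apply_le (n : ℕ) {t : ℝ} (ht : 0 ≤ t) (f : E H) : ‖U ν n t f‖ ≤ ‖f‖ :=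
  contraction _ ht (norm_S_le n) f

lemma U_eq (n : ℕ) (t : ℝ) : U ν n t = Real.exp (-(t * n)) • NormedSpace.exp (t • S ν n) :=
  exp_sub_const _ _ _

lemma U_zero (n : ℕ) : U ν n 0 = 1 := by rw [U, zero_smul, NormedSpace.exp_zero]

lemma U_add (n : ℕ) (s t : ℝ) : U ν n (s + t) = U ν n s * U ν n t := by
  let _ : NormedAlgebra ℚ (E H →L[ℝ] E H) := NormedAlgebra.restrictScalars ℚ ℝ _
  rw [U, U, U, add_smul, NormedSpace.exp_add_of_commute]
  exact ((Commute.refl (A ν n)).smul_left s).smul_right t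

lemma continuous_U (n : ℕ) (f : E H) : Continuous fun t => U ν n t f := by
  have : Continuous fun t : ℝ => NormedSpace.exp (t • A ν n) := by
    let _ : NormedAlgebra ℚ (E H →L[ℝ] E H) := NormedAlgebra.restrictScalars ℚ ℝ _
    exact NormedSpace.exp_continuous.comp (by fun_prop)
  exact this.clm_apply continuous_const

lemma U_L (n : ℕ) (t : ℝ) (h : H) : U ν n t * L h = L h * U ν n t := by
  let _ : NormedAlgebra ℚ (E H →L[ℝ] E H) := NormedAlgebra.restrictScalars ℚ ℝ _
  have h1 : Commute (S ν n) (L h) :=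
    Commute.sum_left _ _ _ fun k _ => P_L (ν k : Measure H) h
  have h2 : Commute (t • A ν n) (L h) := by
    refine Commute.smul_left (h1.sub_left ?_) t
    exact (Commute.one_left _).smul_left _
  exact h2.exp_left

lemma S_nonneg (n : ℕ) {f : E H} (hf : ∀ x, 0 ≤ f x) (x : H) : 0 ≤ S ν n f x := by
  induction n with
  | zero => simp [S]
  | succ n ih =>
    rw [S_succ]
    exact add_nonneg ih (P_nonneg _ hf x)

lemma S_pow_nonneg (n j : ℕ) {f : E H} (hf : ∀ x, 0 ≤ f x) : ∀ x, 0 ≤ (S ν n ^ j) f x := by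
  induction j with
  | zero => simpa using hf
  | succ j ih =>
    rw [pow_succ', mul_apply_eq_comp]
    exact S_nonneg n ih

lemma hasSum_U (n : ℕ) (t : ℝ) (f : E H) (x : H) :
    HasSum (fun j : ℕ => Real.exp (-(t * n)) * (t ^ j / j ! * (S ν n ^ j) f x)) (U ν n t f x) := by
  have h := (ev x).hasSum (hasSum_exp_apply (S ν n) t f)
  rw [U_eq]
  exact h.mul_left _

lemma U_nonneg (n : ℕ) {t : ℝ} (ht : 0 ≤ t) {f : E H} (hf : ∀ x, 0 ≤ f x) (x : H) :
    0 ≤ U ν n t f x :=
  (hasSum_U n t f x).nonneg fun j =>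
    mul_nonneg (Real.exp_nonneg _) (mul_nonneg (by positivity) (S_pow_nonneg n j hf x))

/-- `T e_i → c` pointwise -/
def Cons (e : ℕ → E H) (T : E H →L[ℝ] E H) (c : ℝ) : Prop :=
  ∀ x, Tendsto (fun i => T (e i) x) atTop (𝓝 c)

section cons

variable {e : ℕ → E H} (he : ∀ i x, 0 ≤ e i x ∧ e i x ≤ 1)
include he

lemma norm_e_le (i : ℕ) : ‖e i‖ ≤ 1 :=
  (norm_le_iff zero_le_one).2 fun x => by rw [abs_of_nonneg (he i x).1]; exact (he i x).2

lemma Cons.P_mul {T : E H →L[ℝ] E H} {c : ℝ} (hT : Cons e T c) (ν : Measure H)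
    [IsProbabilityMeasure ν] : Cons e (P ν * T) c := by
  intro x
  simp only [mul_apply_eq_comp, P_apply]
  have h : Tendsto (fun i => ∫ y, T (e i) (x * y) ∂ν) atTop (𝓝 (∫ _, c ∂ν)) := by
    refine tendsto_integral_of_dominated_convergence (fun _ => ‖T‖) (fun i => ?_)
      (integrable_const _) (fun i => ?_) ?_
    · exact ((map_continuous (T (e i))).comp (continuous_const_mul x)).aestronglyMeasurable
    · refine .of_forall fun y => ?_
      refine (abs_le_norm _ _).trans ((T.le_opNorm _).trans ?_)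
      exact mul_le_of_le_one_right (norm_nonneg _) (norm_e_le he i)
    · exact .of_forall fun y => hT _
  simpa using h

lemma Cons.S_mul {T : E H →L[ℝ] E H} {c : ℝ} (hT : Cons e T c) (n : ℕ) :
    Cons e (S ν n * T) (n * c) := by
  induction n with
  | zero => intro x; simp [S]
  | succ n ih =>
    intro x
    have := (ih x).add (hT.P_mul he (ν n : Measure H) x)
    have e1 : ((n + 1 : ℕ) : ℝ) * c = n * c + c := by push_cast; ring
    rw [S_succ, add_mul, e1]
    exact this

lemma Cons.S_pow (h1 : Cons e 1 1) (n j : ℕ) : Cons e (S ν n ^ j) ((n : ℝ) ^ j) := by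
  induction j with
  | zero => simpa using h1
  | succ j ih =>
    rw [pow_succ', pow_succ']
    exact ih.S_mul he n

lemma Cons.U (h1 : Cons e 1 1) (n : ℕ) {t : ℝ} (ht : 0 ≤ t) : Cons e (U ν n t) 1 := by
  intro x
  have h2 : ∀ i, CS.U ν n t (e i) x =
      ∑' j : ℕ, Real.exp (-(t * n)) * (t ^ j / j ! * (S ν n ^ j) (e i) x) :=
    fun i => (hasSum_U n t (e i) x).tsum_eq.symm
  have h3 : (1 : ℝ) = ∑' j : ℕ, Real.exp (-(t * n)) * (t ^ j / j ! * (n : ℝ) ^ j) := by
    have := (hasSum_real_exp (t * n)).mul_left (Real.exp (-(t * n)))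
    rw [← Real.exp_add, neg_add_cancel, Real.exp_zero] at this
    rw [← this.tsum_eq]
    congr 1
    funext j
    rw [mul_pow]; ring
  simp only [h2]
  rw [h3]
  refine tendsto_tsum_of_dominated_convergence
    (bound := fun j => Real.exp (-(t * n)) * ((t * n) ^ j / j !)) ?_ ?_ ?_
  · exact ((hasSum_real_exp (t * n)).mul_left _).summable
  · intro j
    exact ((Cons.S_pow he h1 n j x).const_mul _).const_mul _
  · refine .of_forall fun i j => ?_
    rw [norm_mul, norm_mul, Real.norm_of_nonneg (Real.exp_nonneg _),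
      Real.norm_of_nonneg (show (0 : ℝ) ≤ t ^ j / (j ! : ℝ) by positivity)]
    have : ‖(S ν n ^ j) (e i) x‖ ≤ (n : ℝ) ^ j := by
      refine (abs_le_norm _ _).trans ?_
      have h5 : ∀ k : ℕ, ‖(S ν n ^ k) (e i)‖ ≤ (n : ℝ) ^ k := by
        intro k
        induction k with
        | zero => simpa using norm_e_le he i
        | succ k ih =>
          rw [pow_succ', pow_succ', mul_apply_eq_comp]
          refine ((S ν n).le_of_opNorm_le (norm_S_le n) _).trans ?_
          gcongr
      exact h5 j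
    calc Real.exp (-(t * n)) * (t ^ j / j ! * ‖(S ν n ^ j) (e i) x‖)
        ≤ Real.exp (-(t * n)) * (t ^ j / j ! * (n : ℝ) ^ j) := by gcongr
      _ = _ := by rw [mul_pow]; ring

end cons

end Pool.Agent.R571.CS
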