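import Pool.Agent.R571.CS.Basic

/-!
# Choice of one averaging operator
-/

namespace Pool.Agent.R571.CS

open MeasureTheory Filter Topology Set
open scoped ZeroAtInfty NNReal ENNReal

variable {H : Type*} [Group H] [TopologicalSpace H] [IsTopologicalGroup H]
  [LocallyCompactSpace H] [SecondCountableTopology H] [T2Space H]
  [MeasurableSpace H] [BorelSpace H]

/-- near `1` the right translations increase the left Haar measure by a factor close to one -/
lemma modular (m : Measure H) [m.IsHaarMeasure] {ε : ℝ≥0∞} (hε : ε ≠ 0) :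
    ∀ᶠ y in 𝓝 (1 : H), ∀ g : H → ℝ≥0∞, Measurable g →
      ∫⁻ x, g (x * y) ∂m ≤ (1 + ε) * ∫⁻ x, g x ∂m := by
  obtain ⟨K, hK, hK1⟩ := exists_compact_mem_nhds (1 : H)
  have hKpos : 0 < m K := Measure.measure_pos_of_mem_nhds m hK1
  have hKtop : m K < ∞ := hK.measure_lt_top
  have hlt : m K < (1 + ε) * m K := by
    rw [add_mul, one_mul]
    exact ENNReal.lt_add_right hKtop.ne (mul_ne_zero hε hKpos.ne')
  obtain ⟨U, hKU, hU, hmU⟩ := K.exists_isOpen_lt_of_lt _ hlt
  obtain ⟨V, hV, hKV⟩ := compact_open_separated_mul_right hK hU hKU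
  have hV' : ∀ᶠ y in 𝓝 (1 : H), y⁻¹ ∈ V := by
    have : Tendsto (fun y : H => y⁻¹) (𝓝 1) (𝓝 1) := by
      simpa using (continuous_inv (G := H)).tendsto 1
    exact this hV
  filter_upwards [hV'] with y hy g hg
  have h0 : m.map (· * y) = Measure.modularCharacterFun y • m :=
    Measure.map_right_mul_eq_modularCharacterFun_smul m y
  have h1 : ∫⁻ x, g (x * y) ∂m = Measure.modularCharacterFun y * ∫⁻ x, g x ∂m := by
    rw [← lintegral_map hg (measurable_mul_const y), h0, lintegral_smul_measure]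
    rfl
  have h2 : (Measure.modularCharacterFun y : ℝ≥0∞) * m K ≤ (1 + ε) * m K := by
    have h3 : m.map (· * y) K = (Measure.modularCharacterFun y : ℝ≥0∞) * m K := by
      rw [h0]; rfl
    rw [← h3, Measure.map_apply (measurable_mul_const y) hK.measurableSet]
    refine (measure_mono ?_).trans hmU.le
    intro x hx
    refine hKV ⟨x * y, hx, y⁻¹, hy, by simp⟩
  rw [h1]
  gcongr
  exact (ENNReal.mul_le_mul_iff_left hKpos.ne' hKtop.ne).1 h2

/-- the choice of one averaging measure -/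
lemma exists_step (m : Measure H) [m.IsHaarMeasure] {𝒦 : Set (E H)} (h𝒦 : IsCompact 𝒦)
    {δ : ℝ} (hδ : 0 < δ) {ε : ℝ≥0∞} (hε : ε ≠ 0) :
    ∃ ν : ProbabilityMeasure H, (∃ C : ℝ≥0∞, C ≠ ∞ ∧ (ν : Measure H) ≤ C • m) ∧
      (∀ g : H → ℝ≥0∞, Measurable g →
        ∫⁻ x, ∫⁻ y, g (x * y) ∂(ν : Measure H) ∂m ≤ (1 + ε) * ∫⁻ x, g x ∂m) ∧
      ∀ f ∈ 𝒦, ‖P (ν : Measure H) f - f‖ ≤ δ := by
  have h1 : ∀ᶠ y in 𝓝 (1 : H), ∀ f ∈ 𝒦, ‖R y f - f‖ ≤ δ := by
    refine h𝒦.eventually_forall_of_forall_eventually fun f hf => ?_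
    have h2 := unif f (show (0 : ℝ) < δ / 3 by positivity)
    have h3 : ∀ᶠ g in 𝓝 f, ‖g - f‖ ≤ δ / 3 := by
      filter_upwards [Metric.closedBall_mem_nhds f (show (0 : ℝ) < δ / 3 by positivity)] with g hg
      rwa [mem_closedBall_iff_norm] at hg
    filter_upwards [h2.prod_nhds h3] with ⟨y, g⟩ ⟨hy, hg⟩
    simp only at hy hg ⊢
    have e : R y g - g = R y (g - f) + (R y f - f) - (g - f) := by
      rw [R_sub]; abel
    rw [e]
    refine (norm_sub_le _ _).trans ?_
    have := norm_add_le (R y (g - f)) (R y f - f)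
    have := norm_R y (g - f)
    linarith
  obtain ⟨K, hK, hK1⟩ := exists_compact_mem_nhds (1 : H)
  obtain ⟨V, hV, hVo, hV1⟩ := mem_nhds_iff.1 ((h1.and (modular m hε)).and hK1)
  have hVpos : 0 < m V := hVo.measure_pos m ⟨1, hV1⟩
  have hVtop : m V < ∞ := (measure_mono fun x hx => (hV hx).2).trans_lt hK.measure_lt_top
  have hprob : IsProbabilityMeasure ((m V)⁻¹ • m.restrict V) := by
    constructor
    rw [Measure.smul_apply, Measure.restrict_apply_univ, smul_eq_mul,
      ENNReal.inv_mul_cancel hVpos.ne' hVtop.ne]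
  have hae : ∀ᵐ y ∂((m V)⁻¹ • m.restrict V), y ∈ V := by
    refine Measure.ae_smul_measure ?_ _
    exact ae_restrict_mem hVo.measurableSet
  refine ⟨⟨(m V)⁻¹ • m.restrict V, hprob⟩, ⟨(m V)⁻¹, ENNReal.inv_ne_top.2 hVpos.ne', ?_⟩, ?_, ?_⟩
  · intro s
    simp only [ProbabilityMeasure.coe_mk, Measure.smul_apply]
    gcongr
    exact Measure.restrict_le_self
  · intro g hg
    simp only [ProbabilityMeasure.coe_mk]
    rw [lintegral_lintegral_swap (f := fun x y => g (x * y)) (hg.comp measurable_mul).aemeasurable]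
    calc ∫⁻ y, ∫⁻ x, g (x * y) ∂m ∂((m V)⁻¹ • m.restrict V)
        ≤ ∫⁻ y, (1 + ε) * ∫⁻ x, g x ∂m ∂((m V)⁻¹ • m.restrict V) := by
          refine lintegral_mono_ae ?_
          filter_upwards [hae] with y hy
          exact (hV hy).1.2 g hg
      _ = (1 + ε) * ∫⁻ x, g x ∂m := by
          rw [lintegral_const, measure_univ, mul_one]
  · intro f hf
    simp only [ProbabilityMeasure.coe_mk]
    have e : P ((m V)⁻¹ • m.restrict V) f - f = ∫ y, (R y f - f) ∂((m V)⁻¹ • m.restrict V) := by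
      rw [integral_sub (integrable_R _ f) (integrable_const f), integral_const]
      simp [P_def]
    rw [e]
    refine (norm_integral_le_of_norm_le_const (C := δ) ?_).trans (by simp)
    filter_upwards [hae] with y hy
    exact (hV hy).1.1 f hf

end Pool.Agent.R571.CS
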