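import Pool.Agent.R571.CS.Step
import Pool.Agent.R571.CS.Exp

/-!
# Operators with mixed sup / `L¹` bounds
-/

namespace Pool.Agent.R571.CS

open MeasureTheory Filter Topology Set
open scoped ZeroAtInfty NNReal ENNReal Nat

variable {H : Type*} [Group H] [TopologicalSpace H] [IsTopologicalGroup H]
  [LocallyCompactSpace H] [SecondCountableTopology H] [T2Space H]
  [MeasurableSpace H] [BorelSpace H]

/-- the `L¹` norm -/
noncomputable def I (m : Measure H) (f : E H) : ℝ≥0∞ := ∫⁻ x, ‖f x‖ₑ ∂m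

lemma enorm_le {f : E H} {C : ℝ≥0∞} (h : ∀ x, ‖f x‖ₑ ≤ C) : ‖f‖ₑ ≤ C := by
  rcases eq_or_ne C ∞ with rfl | hC
  · exact le_top
  · lift C to ℝ≥0 using hC
    rw [enorm_le_coe]
    refine (norm_le_iff C.2).2 fun x => ?_
    have := h x
    rw [enorm_le_coe] at this
    exact this

lemma enorm_apply_le (f : E H) (x : H) : ‖f x‖ₑ ≤ ‖f‖ₑ := by
  rw [enorm_le_iff_norm_le]
  exact abs_le_norm f x

/-- mixed bounds -/
structure Ty (m : Measure H) (T : E H →L[ℝ] E H) (a b c : ℝ≥0) : Prop where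
  sup : ∀ f, ‖T f‖ₑ ≤ a * ‖f‖ₑ + b * I m f
  int : ∀ f, I m (T f) ≤ c * I m f

variable {m : Measure H} {S T : E H →L[ℝ] E H} {a b c a' b' c' : ℝ≥0}

lemma Ty.mul (hS : Ty m S a b c) (hT : Ty m T a' b' c') :
    Ty m (S * T) (a * a') (a * b' + b * c') (c * c') := by
  constructor
  · intro f
    calc ‖(S * T) f‖ₑ = ‖S (T f)‖ₑ := by rw [mul_apply_eq_comp]
      _ ≤ a * ‖T f‖ₑ + b * I m (T f) := hS.sup _
      _ ≤ a * (a' * ‖f‖ₑ + b' * I m f) + b * (c' * I m f) := by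
          gcongr
          · exact hT.sup f
          · exact hT.int f
      _ = _ := by push_cast; ring
  · intro f
    calc I m ((S * T) f) = I m (S (T f)) := by rw [mul_apply_eq_comp]
      _ ≤ c * I m (T f) := hS.int _
      _ ≤ c * (c' * I m f) := by
          gcongr
          exact hT.int f
      _ = _ := by push_cast; ring

lemma Ty.add (hS : Ty m S a b c) (hT : Ty m T a' b' c') :
    Ty m (S + T) (a + a') (b + b') (c + c') := by
  constructor
  · intro f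
    calc ‖(S + T) f‖ₑ = ‖S f + T f‖ₑ := rfl
      _ ≤ ‖S f‖ₑ + ‖T f‖ₑ := enorm_add_le _ _
      _ ≤ (a * ‖f‖ₑ + b * I m f) + (a' * ‖f‖ₑ + b' * I m f) := by
          gcongr
          · exact hS.sup f
          · exact hT.sup f
      _ = _ := by push_cast; ring
  · intro f
    calc I m ((S + T) f) = ∫⁻ x, ‖S f x + T f x‖ₑ ∂m := rfl
      _ ≤ ∫⁻ x, (‖S f x‖ₑ + ‖T f x‖ₑ) ∂m := lintegral_mono fun x => enorm_add_le _ _
      _ = I m (S f) + I m (T f) :=
          lintegral_add_left (map_continuous (S f)).enorm.measurable _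
      _ ≤ c * I m f + c' * I m f := by
          gcongr
          · exact hS.int f
          · exact hT.int f
      _ = _ := by push_cast; ring

lemma Ty.mono (hS : Ty m S a b c) (ha : a ≤ a') (hb : b ≤ b') (hc : c ≤ c') :
    Ty m S a' b' c' :=
  ⟨fun f => (hS.sup f).trans (by gcongr), fun f => (hS.int f).trans (by gcongr)⟩

lemma Ty.one : Ty m (1 : E H →L[ℝ] E H) 1 0 1 := by
  constructor
  · intro f
    simp
  · intro f
    simp

lemma Ty.zero : Ty m (0 : E H →L[ℝ] E H) 0 0 0 := by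
  constructor
  · intro f
    simp
  · intro f
    simp [I]

lemma Ty.pow (hS : Ty m S a b c) (hac : a ≤ c) (j : ℕ) :
    Ty m (S ^ j) (a ^ j) (j * b * c ^ (j - 1)) (c ^ j) := by
  induction j with
  | zero => simpa using Ty.one
  | succ j ih =>
    rw [pow_succ']
    refine (hS.mul ih).mono (pow_succ' a j).ge ?_ (pow_succ' c j).ge
    rcases Nat.eq_zero_or_pos j with rfl | hj
    · simp
    · obtain ⟨i, rfl⟩ : ∃ i, j = i + 1 := ⟨j - 1, by omega⟩
      simp only [Nat.add_sub_cancel]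
      calc a * (((i + 1 : ℕ) : ℝ≥0) * b * c ^ i) + b * c ^ (i + 1)
          ≤ c * (((i + 1 : ℕ) : ℝ≥0) * b * c ^ i) + b * c ^ (i + 1) := by gcongr
        _ = ((i + 1 + 1 : ℕ) : ℝ≥0) * b * c ^ (i + 1) := by push_cast; ring

lemma Ty.P_prob {ν : Measure H} [IsProbabilityMeasure ν] {ε : ℝ≥0}
    (h : ∀ g : H → ℝ≥0∞, Measurable g →
      ∫⁻ x, ∫⁻ y, g (x * y) ∂ν ∂m ≤ (1 + ε) * ∫⁻ x, g x ∂m) : Ty m (P ν) 1 0 (1 + ε) := by
  constructor
  · intro f
    have h1 : ‖P ν f‖ ≤ 1 * ‖f‖ := (P ν).le_of_opNorm_le (norm_P_le ν) f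
    rw [one_mul] at h1
    rw [ENNReal.coe_one, one_mul, ENNReal.coe_zero, zero_mul, add_zero, enorm_le_iff_norm_le]
    exact h1
  · intro f
    refine le_trans (lintegral_mono fun x => ?_)
      (h (fun x => ‖f x‖ₑ) (map_continuous f).enorm.measurable)
    rw [P_apply]
    exact enorm_integral_le_lintegral_enorm _

lemma Ty.P_ac [m.IsHaarMeasure] {ν : Measure H} [IsProbabilityMeasure ν] {ε : ℝ≥0}
    (h : ∀ g : H → ℝ≥0∞, Measurable g →
      ∫⁻ x, ∫⁻ y, g (x * y) ∂ν ∂m ≤ (1 + ε) * ∫⁻ x, g x ∂m) {C : ℝ≥0}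
    (hC : ν ≤ (C : ℝ≥0∞) • m) : Ty m (P ν) 0 C (1 + ε) := by
  refine ⟨fun f => enorm_le fun x => ?_, (Ty.P_prob h).int⟩
  rw [ENNReal.coe_zero, zero_mul, zero_add, P_apply]
  calc ‖∫ y, f (x * y) ∂ν‖ₑ ≤ ∫⁻ y, ‖f (x * y)‖ₑ ∂ν := enorm_integral_le_lintegral_enorm _
    _ ≤ ∫⁻ y, ‖f (x * y)‖ₑ ∂((C : ℝ≥0∞) • m) := lintegral_mono' hC le_rfl
    _ = C * ∫⁻ y, ‖f (x * y)‖ₑ ∂m := by rw [lintegral_smul_measure]; rfl
    _ = C * I m f := by rw [I, lintegral_mul_left_eq_self (fun y => ‖f y‖ₑ) x]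

lemma Ty.exp (hS : Ty m S a b c) (hac : a ≤ c) {t : ℝ} (ht : 0 ≤ t) {f : E H}
    (hf : I m f ≠ ∞) :
    ‖NormedSpace.exp (t • S) f‖ ≤
      Real.exp (t * a) * ‖f‖ + t * b * Real.exp (t * c) * (I m f).toReal := by
  have h1 := hasSum_exp_apply S t f
  have h2 := (hasSum_real_exp (t * a)).mul_right ‖f‖
  have h3 : HasSum (fun n : ℕ => t ^ n / n ! * (n * b * c ^ (n - 1))) (t * b * Real.exp (t * c)) := by
    rw [← hasSum_nat_add_iff' 1]
    simp only [Finset.range_one, Finset.sum_singleton, Nat.cast_zero, zero_mul, mul_zero, sub_zero]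
    have e : (fun n : ℕ => t ^ (n + 1) / (n + 1)! * (((n + 1 : ℕ) : ℝ) * b * c ^ (n + 1 - 1))) =
        fun n : ℕ => (t * b) * ((t * c) ^ n / n !) := by
      funext n
      rw [Nat.factorial_succ, Nat.add_sub_cancel, mul_pow, pow_succ]
      have : (n ! : ℝ) ≠ 0 := by positivity
      have : ((n : ℝ) + 1) ≠ 0 := by positivity
      push_cast
      field_simp
    rw [e]
    exact (hasSum_real_exp (t * c)).mul_left (t * b)
  have h4 := h2.add (h3.mul_right (I m f).toReal)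
  refine h1.norm_le_of_bounded h4 fun n => ?_
  rw [norm_smul, Real.norm_of_nonneg (by positivity)]
  have h5 := (hS.pow hac n).sup f
  have h6 : ‖(S ^ n) f‖ ≤ a ^ n * ‖f‖ + (n * b * c ^ (n - 1)) * (I m f).toReal := by
    have h7 : ENNReal.ofReal ‖(S ^ n) f‖ ≤
        ENNReal.ofReal (a ^ n * ‖f‖ + (n * b * c ^ (n - 1)) * (I m f).toReal) := by
      rw [ofReal_norm]
      refine h5.trans (le_of_eq ?_)
      rw [ENNReal.ofReal_add (by positivity) (by positivity), ENNReal.ofReal_mul (by positivity),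
        ENNReal.ofReal_mul (by positivity), ofReal_norm, ENNReal.ofReal_toReal hf]
      congr 2
      · rw [← NNReal.coe_pow, ENNReal.ofReal_coe_nnreal]
      · rw [← ENNReal.ofReal_coe_nnreal]
        congr 1
    exact (ENNReal.ofReal_le_ofReal_iff (by positivity)).1 h7
  calc t ^ n / n ! * ‖(S ^ n) f‖
      ≤ t ^ n / n ! * (a ^ n * ‖f‖ + (n * b * c ^ (n - 1)) * (I m f).toReal) := by gcongr
    _ = _ := by rw [mul_pow]; ring

end Pool.Agent.R571.CS
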